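import Pool.Agent.MP_9fca84_an.H66.Collapse
import Pool.Agent.MP_9fca84_an.H66.Gap

set_option autoImplicit false

open scoped ENNReal
open MeasureTheory Metric

namespace Pool.Agent.Results.MP_9fca84_an.GapCollapse

open Pool.Agent.MP_9fca84_an.H66

/-- If the gap exceeds the edge length of the regular simplex inscribed in the target sphere,
every homotopy class of maps between spheres contains maps of arbitrarily small gap potential. -/
theorem result (n m : ℕ) (ε : ℝ) (hε : √(2 + 2 / (n + 1)) < ε) (h : SMap (m + 1) (n + 1))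
    (η : ℝ≥0∞) (hη : 0 < η) : ∃ f : SMap (m + 1) (n + 1), f.Homotopic h ∧ gap ε f ≤ η := by
  have : IsFiniteMeasure (surf (m + 1)) := by
    unfold surf
    infer_instance
  refine collapse _ _ (fun d hd => ?_) n h hε hη
  refine ⟨ENNReal.ofReal (1 / d ^ (2 * (m + 1 - 1))), ENNReal.ofReal_ne_top, fun p hp => ?_⟩
  gcongr

end Pool.Agent.Results.MP_9fca84_an.GapCollapse
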