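import Pool.Agent.MP_9fca84_an.H66.Bound
import Pool.Agent.MP_9fca84_an.H66.Collapse
import Pool.Agent.MP_9fca84_an.H66.Pos
import Pool.Agent.MP_9fca84_an.H66.HopfMap

set_option autoImplicit false

open scoped ENNReal
open MeasureTheory Metric

namespace Pool.Agent.Results.MP_9fca84_an.Threshold

open Pool.Agent.MP_9fca84_an.H66

lemma fails {n : ℕ} (hn : 2 ≤ n) {ε : ℝ} (hε : √(2 + 2 / (n + 1)) < ε) {h : SMap (n + n) (n + 1)}
    {k : ℤ} (hk : IsHopf h k) (h0 : k ≠ 0) : ¬Bound n ε := by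
  rintro ⟨C, hC⟩
  have ht : 0 < 1 / (|C| + 1) := by positivity
  obtain ⟨f, hf, hg⟩ : ∃ f : SMap (n + n) (n + 1), f.Homotopic h ∧
      gap ε f ≤ ENNReal.ofReal (1 / (|C| + 1)) := by
    refine collapse _ _ (fun d hd => ?_) n h hε (ENNReal.ofReal_pos.2 ht)
    refine ⟨ENNReal.ofReal (1 / d ^ (2 * (n + n - 1))), ENNReal.ofReal_ne_top, fun p hp => ?_⟩
    gcongr
  obtain ⟨g, G, γ, h1, h2⟩ := hk
  have h3 := hC f k ⟨g, G, γ, hf.trans h1, h2⟩
  have h4 := ENNReal.toReal_le_of_le_ofReal ht.le hg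
  have h5 : (2 : ℝ) ≤ n := by exact_mod_cast hn
  have h6 : 0 ≤ 1 / (2 * (n : ℝ) - 1) := one_div_nonneg.2 (by linarith)
  have h7 : 1 / (|C| + 1) ≤ 1 := div_le_one_of_le₀ (by linarith [abs_nonneg C]) (by positivity)
  have h8 := (Real.rpow_le_rpow ENNReal.toReal_nonneg h4 (by linarith :
    0 ≤ 1 + 1 / (2 * (n : ℝ) - 1))).trans (Real.rpow_le_self_of_le_one ht.le h7 (by linarith))
  have h9 : (1 : ℝ) ≤ |(k : ℝ)| := by exact_mod_cast Int.one_le_abs h0
  have h10 := mul_le_mul (le_abs_self C) h8 (by positivity) (abs_nonneg C)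
  have h11 : |C| * (1 / (|C| + 1)) < 1 := by
    rw [mul_one_div, div_lt_one (by positivity)]
    linarith
  linarith

/-- The Hopf invariant is bounded by the gap potential exactly up to the edge length of the regular
simplex inscribed in the target sphere; in particular not for every gap below two. -/
theorem result :
    (∀ n : ℕ, 2 ≤ n → ∀ ε : ℝ, 0 < ε → (Bound n ε ↔ ε ≤ √(2 + 2 / (n + 1)) ∨
      ∀ (f : SMap (n + n) (n + 1)) (k : ℤ), IsHopf f k → k = 0)) ∧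
    ¬∀ n : ℕ, 2 ≤ n → ∀ ε ∈ Set.Ioo (0 : ℝ) 2, Bound n ε := by
  refine ⟨fun n hn ε h0 => ⟨fun h => ?_, fun h => ?_⟩, fun h => ?_⟩
  · by_contra hno
    simp only [not_or, not_le, not_forall] at hno
    obtain ⟨h1, f, k, hk, h2⟩ := hno
    exact fails hn h1 hk h2 h
  · rcases h with h | h
    · obtain ⟨q, rfl⟩ : ∃ q, n = q + 2 := ⟨n - 2, by omega⟩
      exact pos q h0 h
    · exact ⟨0, fun f k hk => by simp [h f k hk]⟩
  · refine fails le_rfl ?_ isHopf_hopfMap one_ne_zero (h 2 le_rfl (19 / 10) (by norm_num))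
    rw [Real.sqrt_lt' (by norm_num)]
    norm_num

end Pool.Agent.Results.MP_9fca84_an.Threshold
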